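import Mathlib

/-!
# A first-order definable radical class of groups that is not locally finite

The class consists of the groups `G` in which every element `x` satisfies three conditions, where
`x^G` is the conjugacy class of `x`:

* `x` is a product `(h x h⁻¹) (k x k⁻¹)⁻¹`;
* every `g` in `G` is such a product times an element centralising `x^G`;
* for `u`, `v` commuting with `x`, the commutator of `u` and `v` centralises `x^G`.

These conditions are first-order. Groups in the class decompose as `<x^G> × C(x^G)` for each `x`,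
which gives closure under normal subgroups, homomorphic images and normal joins.
The group `SL₂` over an algebraically closed field of characteristic two is in the class,
non-trivial abelian groups are not.
-/

universe u v

namespace Pool.Agent.Results.MP_cf13c7_al.DefinableRadical

/-! ## The notions of the problem -/

/-- Function symbols of the language of groups: multiplication, inverse, identity. -/
inductive GroupFunc : ℕ → Type
  | mul : GroupFunc 2
  | inv : GroupFunc 1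
  | one : GroupFunc 0

/-- The first-order language of groups. -/
def groupLang : FirstOrder.Language.{0, 0} := ⟨GroupFunc, fun _ => Empty⟩

/-- Every group is a structure for the language of groups, in the standard way. -/
instance groupStructure (G : Type u) [Group G] : groupLang.Structure G where
  funMap := fun {n} f => match n, f with
    | _, GroupFunc.mul => fun v => v 0 * v 1
    | _, GroupFunc.inv => fun v => (v 0)⁻¹
    | _, GroupFunc.one => fun _ => 1
  RelMap := fun {_} r => r.elim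

/-- A class `K` of groups is radical if it is closed under homomorphic images, under normal
subgroups, and contains every group that is generated by its normal subgroups lying in `K`. -/
def IsRadicalClass (K : ∀ (G : Type u) [Group G], Prop) : Prop :=
  (∀ (G H : Type u) [Group G] [Group H] (f : G →* H), Function.Surjective f → K G → K H) ∧
  (∀ (G : Type u) [Group G] (N : Subgroup G), N.Normal → K G → K N) ∧
  (∀ (G : Type u) [Group G], sSup {N : Subgroup G | N.Normal ∧ K N} = ⊤ → K G)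

/-- A class `K` of groups is first-order definable if it is the class of all groups that satisfy
some set of first-order sentences in the language of groups. -/
def IsFirstOrderDefinable (K : ∀ (G : Type u) [Group G], Prop) : Prop :=
  ∃ T : Set groupLang.Sentence, ∀ (G : Type u) [Group G],
    K G ↔ ∀ φ ∈ T, FirstOrder.Language.Sentence.Realize G φ

/-- A group is locally finite if every finitely generated subgroup is finite. -/
def IsLocallyFiniteGroup (G : Type u) [Group G] : Prop :=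
  ∀ H : Subgroup G, H.FG → Finite H

/-! ## Group theory of the class -/

section Core

variable {G : Type u} [Group G]

/-- The three conditions on an element `x` of a group `G` used for the class. -/
def Nice (x : G) : Prop :=
  (∃ h k : G, x = h * x * h⁻¹ * (k * x * k⁻¹)⁻¹) ∧
  (∀ g : G, ∃ h k : G, ∀ l : G,
    (h * x * h⁻¹ * (k * x * k⁻¹)⁻¹)⁻¹ * g * (l * x * l⁻¹) =
      l * x * l⁻¹ * ((h * x * h⁻¹ * (k * x * k⁻¹)⁻¹)⁻¹ * g)) ∧
  (∀ u v : G, u * x = x * u → v * x = x * v → ∀ l : G,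
    u * v * u⁻¹ * v⁻¹ * (l * x * l⁻¹) = l * x * l⁻¹ * (u * v * u⁻¹ * v⁻¹))

/-- The class of groups: every element is nice. -/
def InK (G : Type u) [Group G] : Prop := ∀ x : G, Nice x

/-- The normal closure of one element. -/
abbrev cl (x : G) : Subgroup G := Subgroup.normalClosure {x}

/-- The centraliser of the normal closure of one element. -/
abbrev ce (x : G) : Subgroup G := Subgroup.centralizer (cl x : Set G)

/-- Every element of the normal closure is nice. -/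
def HN (x : G) : Prop := ∀ y ∈ cl x, Nice y

theorem self_mem (x : G) : x ∈ cl x := Subgroup.subset_normalClosure rfl

theorem conj_mem_cl {x y : G} (h : y ∈ cl x) (g : G) : g * y * g⁻¹ ∈ cl x :=
  Subgroup.normalClosure_normal.conj_mem y h g

theorem mem_ce_iff (x z : G) : z ∈ ce x ↔ ∀ l : G, z * (l * x * l⁻¹) = l * x * l⁻¹ * z := by
  constructor
  · intro hz l
    have h1 := Subgroup.mem_centralizer_iff.1 hz (l * x * l⁻¹) (conj_mem_cl (self_mem x) l)
    exact h1.symm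
  · intro h
    have key : cl x ≤ Subgroup.centralizer {z} := by
      unfold cl Subgroup.normalClosure
      rw [Subgroup.closure_le]
      intro y hy
      obtain ⟨a, ha, hay⟩ := Group.mem_conjugatesOfSet_iff.1 hy
      rw [Set.mem_singleton_iff] at ha
      subst ha
      obtain ⟨l, hl⟩ := isConj_iff.1 hay
      rw [SetLike.mem_coe, Subgroup.mem_centralizer_iff]
      intro w hw
      rw [Set.mem_singleton_iff] at hw
      subst hw
      rw [← hl]
      exact h l
    rw [Subgroup.mem_centralizer_iff]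
    intro y hy
    have h2 := Subgroup.mem_centralizer_iff.1 (key hy) z rfl
    exact h2.symm

theorem ce_comm {x y z : G} (hz : z ∈ ce x) (hy : y ∈ cl x) : y * z = z * y :=
  Subgroup.mem_centralizer_iff.1 hz y hy

theorem ce_conj {x z : G} (hz : z ∈ ce x) (g : G) : g * z * g⁻¹ ∈ ce x := by
  rw [Subgroup.mem_centralizer_iff]
  intro y hy
  have h1 : g⁻¹ * y * g ∈ cl x := by
    have := conj_mem_cl hy g⁻¹
    simpa using this
  have h2 := ce_comm hz h1
  calc y * (g * z * g⁻¹) = g * (g⁻¹ * y * g * z) * g⁻¹ := by group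
    _ = g * (z * (g⁻¹ * y * g)) * g⁻¹ := by rw [h2]
    _ = g * z * g⁻¹ * y := by group

theorem cl_le {x : G} {N : Subgroup G} (hN : N.Normal) (hx : x ∈ N) : cl x ≤ N := by
  have := hN
  exact Subgroup.normalClosure_le_normal (by simpa using hx)

theorem cl_le_cl {x y : G} (hy : y ∈ cl x) : cl y ≤ cl x :=
  cl_le Subgroup.normalClosure_normal hy

theorem HN.of_mem {x y : G} (hx : HN x) (hy : y ∈ cl x) : HN y :=
  fun z hz => hx z (cl_le_cl hy hz)

/-- A central element that is nice is trivial. -/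
theorem nice_central {z : G} (hz : Nice z) (hc : ∀ g : G, g * z = z * g) : z = 1 := by
  obtain ⟨h, k, e⟩ := hz.1
  have h1 : h * z * h⁻¹ = z := by rw [hc h]; group
  have h2 : k * z * k⁻¹ = z := by rw [hc k]; group
  rw [h1, h2] at e
  simpa using e

theorem decomp {x : G} (hx : Nice x) (g : G) :
    ∃ h k c : G, c ∈ ce x ∧ g = h * x * h⁻¹ * (k * x * k⁻¹)⁻¹ * c := by
  obtain ⟨h, k, hl⟩ := hx.2.1 g
  refine ⟨h, k, (h * x * h⁻¹ * (k * x * k⁻¹)⁻¹)⁻¹ * g, ?_, by group⟩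
  rw [mem_ce_iff]
  exact hl

theorem bx_mem (x h k : G) : h * x * h⁻¹ * (k * x * k⁻¹)⁻¹ ∈ cl x :=
  (cl x).mul_mem (conj_mem_cl (self_mem x) h) ((cl x).inv_mem (conj_mem_cl (self_mem x) k))

theorem decomp' {x : G} (hx : Nice x) (g : G) : ∃ b ∈ cl x, ∃ c ∈ ce x, g = b * c := by
  obtain ⟨h, k, c, hc, e⟩ := decomp hx g
  exact ⟨_, bx_mem x h k, c, hc, e⟩

theorem HN.nice {x : G} (hx : HN x) : Nice x := hx x (self_mem x)

theorem HN.disj {x : G} (hx : HN x) {y : G} (h1 : y ∈ cl x) (h2 : y ∈ ce x) : y = 1 := by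
  refine nice_central (hx y h1) ?_
  intro g
  obtain ⟨b, hb, c, hc, rfl⟩ := decomp' hx.nice g
  have e1 : b * y = y * b := ce_comm h2 hb
  have e2 : y * c = c * y := ce_comm hc h1
  calc b * c * y = b * (c * y) := by group
    _ = b * (y * c) := by rw [e2]
    _ = (b * y) * c := by group
    _ = y * b * c := by rw [e1]
    _ = y * (b * c) := by group

/-- Projections of a direct decomposition. -/
theorem exists_proj (X C : Subgroup G) (hXC : ∀ b ∈ X, ∀ c ∈ C, b * c = c * b)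
    (hint : ∀ b ∈ X, b ∈ C → b = 1) (hsup : ∀ g : G, ∃ b ∈ X, ∃ c ∈ C, g = b * c) :
    ∃ p q : G →* G, (∀ g, p g ∈ X) ∧ (∀ g, q g ∈ C) ∧ (∀ g, g = p g * q g) ∧
      (∀ b ∈ X, p b = b ∧ q b = 1) ∧ (∀ c ∈ C, p c = 1 ∧ q c = c) := by
  choose p hp q hq e using hsup
  have uniq : ∀ b ∈ X, ∀ c ∈ C, ∀ b' ∈ X, ∀ c' ∈ C, b * c = b' * c' → b = b' ∧ c = c' := by
    intro b hb c hc b' hb' c' hc' h
    have h1 : b'⁻¹ * b = c' * c⁻¹ := by
      calc b'⁻¹ * b = b'⁻¹ * (b * c) * c⁻¹ := by group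
        _ = b'⁻¹ * (b' * c') * c⁻¹ := by rw [h]
        _ = c' * c⁻¹ := by group
    have h2 : b'⁻¹ * b = 1 := hint _ (X.mul_mem (X.inv_mem hb') hb)
      (h1 ▸ C.mul_mem hc' (C.inv_mem hc))
    have h3 : b = b' := by
      have := congrArg (fun t => b' * t) h2
      simpa using this
    refine ⟨h3, ?_⟩
    rw [h3] at h
    exact mul_left_cancel h
  have pm : ∀ g g', p (g * g') = p g * p g' ∧ q (g * g') = q g * q g' := by
    intro g g'
    have h1 : p (g * g') * q (g * g') = (p g * p g') * (q g * q g') := by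
      rw [← e (g * g')]
      have h2 : q g * p g' = p g' * q g := (hXC _ (hp g') _ (hq g)).symm
      calc g * g' = (p g * q g) * (p g' * q g') := by rw [← e g, ← e g']
        _ = p g * (q g * p g') * q g' := by group
        _ = p g * (p g' * q g) * q g' := by rw [h2]
        _ = (p g * p g') * (q g * q g') := by group
    exact uniq _ (hp _) _ (hq _) _ (X.mul_mem (hp _) (hp _)) _ (C.mul_mem (hq _) (hq _)) h1
  refine ⟨MonoidHom.mk' p (fun a b => (pm a b).1), MonoidHom.mk' q (fun a b => (pm a b).2),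
    hp, hq, e, ?_, ?_⟩
  · intro b hb
    exact uniq _ (hp b) _ (hq b) _ hb _ C.one_mem (by rw [← e b, mul_one])
  · intro c hc
    exact uniq _ (hp c) _ (hq c) _ X.one_mem _ hc (by rw [← e c, one_mul])

theorem HN.proj {x : G} (hx : HN x) :
    ∃ p q : G →* G, (∀ g, p g ∈ cl x) ∧ (∀ g, q g ∈ ce x) ∧ (∀ g, g = p g * q g) ∧
      (∀ b ∈ cl x, p b = b ∧ q b = 1) ∧ (∀ c ∈ ce x, p c = 1 ∧ q c = c) :=
  exists_proj (cl x) (ce x) (fun _ hb _ hc => ce_comm hc hb) (fun _ h1 h2 => hx.disj h1 h2)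
    (decomp' hx.nice)

/-- For `x` with hereditarily nice normal closure, every element of the normal closure has the
form `h x h⁻¹ (k x k⁻¹)⁻¹` with `h`, `k` in the normal closure. -/
theorem HN.rep {x : G} (hx : HN x) {b : G} (hb : b ∈ cl x) :
    ∃ h ∈ cl x, ∃ k ∈ cl x, b = h * x * h⁻¹ * (k * x * k⁻¹)⁻¹ := by
  obtain ⟨p, q, hp, hq, e, hX, hC⟩ := hx.proj
  obtain ⟨h, k, c, hc, hb'⟩ := decomp hx.nice b
  have h1 := congrArg p hb'
  rw [(hX b hb).1] at h1
  refine ⟨p h, hp h, p k, hp k, ?_⟩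
  rw [h1]
  simp only [map_mul, map_inv, (hC c hc).1, (hX x (self_mem x)).1, mul_one]

theorem HN.mul_aux {u v : G} (hu : HN u) (hv : HN v)
    (huv : ∀ a ∈ cl u, ∀ b ∈ cl v, a * b = b * a) : Nice (u * v) := by
  obtain ⟨p, q, hp, hq, e, hX, hC⟩ := hu.proj
  obtain ⟨p', q', hp', hq', e', hX', hC'⟩ := hv.proj
  have vc : ∀ b ∈ cl v, b ∈ ce u := by
    intro b hb
    rw [Subgroup.mem_centralizer_iff]
    intro a ha
    exact huv a ha b hb
  have uc : ∀ a ∈ cl u, a ∈ ce v := by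
    intro a ha
    rw [Subgroup.mem_centralizer_iff]
    intro b hb
    exact (huv a ha b hb).symm
  have key : ∀ h ∈ cl u, ∀ h' ∈ cl v,
      (h * h') * (u * v) * (h * h')⁻¹ = (h * u * h⁻¹) * (h' * v * h'⁻¹) := by
    intro h hh h' hh'
    have h1 : u * h' = h' * u := huv u (self_mem u) h' hh'
    have h2 : h * (h' * v * h'⁻¹) = (h' * v * h'⁻¹) * h := huv h hh _ (conj_mem_cl (self_mem v) h')
    calc (h * h') * (u * v) * (h * h')⁻¹ = h * (h' * u) * v * h'⁻¹ * h⁻¹ := by group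
      _ = h * (u * h') * v * h'⁻¹ * h⁻¹ := by rw [h1]
      _ = h * u * (h' * v * h'⁻¹) * h⁻¹ := by group
      _ = h * u * h⁻¹ * (h * (h' * v * h'⁻¹)) * h⁻¹ := by group
      _ = h * u * h⁻¹ * ((h' * v * h'⁻¹) * h) * h⁻¹ := by rw [h2]
      _ = (h * u * h⁻¹) * (h' * v * h'⁻¹) := by group
  have key2 : ∀ h ∈ cl u, ∀ h' ∈ cl v, ∀ k ∈ cl u, ∀ k' ∈ cl v,
      (h * h') * (u * v) * (h * h')⁻¹ * ((k * k') * (u * v) * (k * k')⁻¹)⁻¹ =
        (h * u * h⁻¹ * (k * u * k⁻¹)⁻¹) * (h' * v * h'⁻¹ * (k' * v * k'⁻¹)⁻¹) := by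
    intro h hh h' hh' k hk k' hk'
    rw [key h hh h' hh', key k hk k' hk']
    have h3 : (k * u * k⁻¹)⁻¹ * (h' * v * h'⁻¹ * (k' * v * k'⁻¹)⁻¹) =
        (h' * v * h'⁻¹ * (k' * v * k'⁻¹)⁻¹) * (k * u * k⁻¹)⁻¹ :=
      huv _ ((cl u).inv_mem (conj_mem_cl (self_mem u) k)) _ (bx_mem v h' k')
    calc (h * u * h⁻¹) * (h' * v * h'⁻¹) * ((k * u * k⁻¹) * (k' * v * k'⁻¹))⁻¹
        = (h * u * h⁻¹) * ((h' * v * h'⁻¹ * (k' * v * k'⁻¹)⁻¹) * (k * u * k⁻¹)⁻¹) := by group
      _ = (h * u * h⁻¹) * ((k * u * k⁻¹)⁻¹ * (h' * v * h'⁻¹ * (k' * v * k'⁻¹)⁻¹)) := by rw [h3]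
      _ = _ := by group
  -- an element centralising both normal closures commutes with conjugates of `u * v`
  have comm : ∀ z : G, z ∈ ce u → z ∈ ce v → ∀ l : G,
      z * (l * (u * v) * l⁻¹) = l * (u * v) * l⁻¹ * z := by
    intro z h1 h2 l
    have e1 := ce_comm h1 (conj_mem_cl (self_mem u) l)
    have e2 := ce_comm h2 (conj_mem_cl (self_mem v) l)
    calc z * (l * (u * v) * l⁻¹) = (z * (l * u * l⁻¹)) * (l * v * l⁻¹) := by group
      _ = ((l * u * l⁻¹) * z) * (l * v * l⁻¹) := by rw [← e1]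
      _ = (l * u * l⁻¹) * (z * (l * v * l⁻¹)) := by group
      _ = (l * u * l⁻¹) * ((l * v * l⁻¹) * z) := by rw [← e2]
      _ = l * (u * v) * l⁻¹ * z := by group
  refine ⟨?_, ?_, ?_⟩
  · obtain ⟨h, hh, k, hk, e1⟩ := hu.rep (self_mem u)
    obtain ⟨h', hh', k', hk', e2⟩ := hv.rep (self_mem v)
    refine ⟨h * h', k * k', ?_⟩
    rw [key2 h hh h' hh' k hk k' hk', ← e1, ← e2]
  · intro g
    obtain ⟨h, hh, k, hk, e1⟩ := hu.rep (hp g)
    obtain ⟨h', hh', k', hk', e2⟩ := hv.rep (hp' g)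
    refine ⟨h * h', k * k', ?_⟩
    rw [key2 h hh h' hh' k hk k' hk', ← e1, ← e2]
    apply comm
    · have h1 : (p g * p' g)⁻¹ * g = (p' g)⁻¹ * q g := by
        calc (p g * p' g)⁻¹ * g = (p g * p' g)⁻¹ * (p g * q g) := by rw [← e g]
          _ = (p' g)⁻¹ * q g := by group
      rw [h1]
      exact (ce u).mul_mem ((ce u).inv_mem (vc _ (hp' g))) (hq g)
    · have h1 : (p g * p' g)⁻¹ * g = (p g)⁻¹ * q' g := by
        have h2 : p g * p' g = p' g * p g := huv _ (hp g) _ (hp' g)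
        calc (p g * p' g)⁻¹ * g = (p' g * p g)⁻¹ * (p' g * q' g) := by rw [← e' g, h2]
          _ = (p g)⁻¹ * q' g := by group
      rw [h1]
      exact (ce v).mul_mem ((ce v).inv_mem (uc _ (hp g))) (hq' g)
  · intro s t hs ht l
    have pu : p (u * v) = u := by
      rw [map_mul, (hX u (self_mem u)).1, (hC v (vc v (self_mem v))).1, mul_one]
    have pv : p' (u * v) = v := by
      rw [map_mul, (hX' v (self_mem v)).1, (hC' u (uc u (self_mem u))).1, one_mul]
    have s1 : p s * u = u * p s := by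
      have := congrArg p hs
      rwa [map_mul p s, map_mul p (u * v), pu] at this
    have t1 : p t * u = u * p t := by
      have := congrArg p ht
      rwa [map_mul p t, map_mul p (u * v), pu] at this
    have s2 : p' s * v = v * p' s := by
      have := congrArg p' hs
      rwa [map_mul p' s, map_mul p' (u * v), pv] at this
    have t2 : p' t * v = v * p' t := by
      have := congrArg p' ht
      rwa [map_mul p' t, map_mul p' (u * v), pv] at this
    have c1 : p (s * t * s⁻¹ * t⁻¹) = 1 := by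
      apply hu.disj (hp _)
      rw [mem_ce_iff]
      intro l
      have := hu.nice.2.2 (p s) (p t) s1 t1 l
      simpa only [map_mul, map_inv] using this
    have c2 : p' (s * t * s⁻¹ * t⁻¹) = 1 := by
      apply hv.disj (hp' _)
      rw [mem_ce_iff]
      intro l
      have := hv.nice.2.2 (p' s) (p' t) s2 t2 l
      simpa only [map_mul, map_inv] using this
    apply comm
    · have := hq (s * t * s⁻¹ * t⁻¹)
      have h3 := e (s * t * s⁻¹ * t⁻¹)
      rw [c1, one_mul] at h3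
      rw [h3]
      exact this
    · have := hq' (s * t * s⁻¹ * t⁻¹)
      have h3 := e' (s * t * s⁻¹ * t⁻¹)
      rw [c2, one_mul] at h3
      rw [h3]
      exact this

theorem HN.mul_comm_case {u v : G} (hu : HN u) (hv : HN v)
    (huv : ∀ a ∈ cl u, ∀ b ∈ cl v, a * b = b * a) : HN (u * v) := by
  intro z hz
  have h1 : cl (u * v) ≤ cl u ⊔ cl v := by
    apply cl_le
    · have : (cl u).Normal := Subgroup.normalClosure_normal
      have : (cl v).Normal := Subgroup.normalClosure_normal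
      exact Subgroup.sup_normal _ _
    · exact Subgroup.mul_mem_sup (self_mem u) (self_mem v)
  have : (cl u).Normal := Subgroup.normalClosure_normal
  obtain ⟨a, ha, b, hb, rfl⟩ := Subgroup.mem_sup_of_normal_left.1 (h1 hz)
  exact HN.mul_aux (hu.of_mem ha) (hv.of_mem hb)
    (fun a' ha' b' hb' => huv a' (cl_le_cl ha ha') b' (cl_le_cl hb hb'))

theorem HN.mul {x y : G} (hx : HN x) (hy : HN y) : HN (x * y) := by
  obtain ⟨p, q, hp, hq, e, hX, hC⟩ := hx.proj
  -- the component of `y` in `cl x` lies in `cl y`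
  have h1 : p y ∈ cl y := by
    obtain ⟨h, k, e1⟩ := hy.nice.1
    have e2 := congrArg p e1
    have e3 : p y = p h * y * (p h)⁻¹ * (p k * y * (p k)⁻¹)⁻¹ := by
      have c1 : p h * q y = q y * p h := ce_comm (hq y) (hp h)
      have c2 : p k * q y = q y * p k := ce_comm (hq y) (hp k)
      have f1 : p h * y * (p h)⁻¹ = p h * p y * (p h)⁻¹ * q y := by
        have : q y * (p h)⁻¹ = (p h)⁻¹ * q y := by
          calc q y * (p h)⁻¹ = (p h)⁻¹ * (p h * q y) * (p h)⁻¹ := by group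
            _ = (p h)⁻¹ * (q y * p h) * (p h)⁻¹ := by rw [c1]
            _ = (p h)⁻¹ * q y := by group
        calc p h * y * (p h)⁻¹ = p h * (p y * q y) * (p h)⁻¹ := by rw [← e y]
          _ = p h * p y * (q y * (p h)⁻¹) := by group
          _ = p h * p y * ((p h)⁻¹ * q y) := by rw [this]
          _ = _ := by group
      have f2 : p k * y * (p k)⁻¹ = p k * p y * (p k)⁻¹ * q y := by
        have : q y * (p k)⁻¹ = (p k)⁻¹ * q y := by
          calc q y * (p k)⁻¹ = (p k)⁻¹ * (p k * q y) * (p k)⁻¹ := by group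
            _ = (p k)⁻¹ * (q y * p k) * (p k)⁻¹ := by rw [c2]
            _ = (p k)⁻¹ * q y := by group
        calc p k * y * (p k)⁻¹ = p k * (p y * q y) * (p k)⁻¹ := by rw [← e y]
          _ = p k * p y * (q y * (p k)⁻¹) := by group
          _ = p k * p y * ((p k)⁻¹ * q y) := by rw [this]
          _ = _ := by group
      rw [f1, f2]
      calc p y = p h * p y * (p h)⁻¹ * (p k * p y * (p k)⁻¹)⁻¹ := by
            simpa only [map_mul, map_inv] using e2
        _ = _ := by group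
    rw [e3]
    exact bx_mem y (p h) (p k)
  have h2 : q y ∈ cl y := by
    have : q y = (p y)⁻¹ * y := by
      calc q y = (p y)⁻¹ * (p y * q y) := by group
        _ = (p y)⁻¹ * y := by rw [← e y]
    rw [this]
    exact (cl y).mul_mem ((cl y).inv_mem h1) (self_mem y)
  have h3 : x * y = (x * p y) * q y := by
    calc x * y = x * (p y * q y) := by rw [← e y]
      _ = _ := by group
  have h4 : x * p y ∈ cl x := (cl x).mul_mem (self_mem x) (hp y)
  rw [h3]
  apply HN.mul_comm_case (hx.of_mem h4) (hy.of_mem h2)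
  intro a ha b hb
  have ha' : a ∈ cl x := cl_le_cl h4 ha
  have hb' : b ∈ ce x := by
    have hn : (ce x).Normal := ⟨fun n hn g => ce_conj hn g⟩
    exact cl_le hn (hq y) hb
  exact ce_comm hb' ha'

theorem nice_one : Nice (1 : G) := by
  refine ⟨⟨1, 1, by simp⟩, fun g => ⟨1, 1, by simp⟩, fun u v _ _ l => by simp⟩

theorem HN.one : HN (1 : G) := by
  intro y hy
  have : cl (1 : G) ≤ ⊥ := cl_le inferInstance (by simp)
  have h2 := this hy
  rw [Subgroup.mem_bot] at h2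
  rw [h2]
  exact nice_one

theorem InK.hn (hG : InK G) (x : G) : HN x := fun y _ => hG y

/-- Closure under homomorphic images. -/
theorem InK.image {H : Type v} [Group H] (hG : InK G) (f : G →* H)
    (hf : Function.Surjective f) : InK H := by
  -- any element of the kernel can be projected away
  have kill : ∀ m : G, f m = 1 → ∃ q : G →* G, q m = 1 ∧ ∀ g, f (q g) = f g := by
    intro m hm
    obtain ⟨p, q, hp, hq, e, hX, hC⟩ := (hG.hn m).proj
    refine ⟨q, (hX m (self_mem m)).2, fun g => ?_⟩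
    have h1 : cl m ≤ f.ker := cl_le inferInstance (by simpa [MonoidHom.mem_ker] using hm)
    have h2 : f (p g) = 1 := h1 (hp g)
    conv_rhs => rw [e g, map_mul, h2, one_mul]
  intro x'
  obtain ⟨x, rfl⟩ := hf x'
  refine ⟨?_, ?_, ?_⟩
  · obtain ⟨h, k, e⟩ := (hG x).1
    refine ⟨f h, f k, ?_⟩
    conv_lhs => rw [e]
    simp only [map_mul, map_inv]
  · intro g'
    obtain ⟨g, rfl⟩ := hf g'
    obtain ⟨h, k, hl⟩ := (hG x).2.1 g
    refine ⟨f h, f k, fun l' => ?_⟩
    obtain ⟨l, rfl⟩ := hf l'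
    have := congrArg f (hl l)
    simpa only [map_mul, map_inv] using this
  · intro u' v' hu hv l'
    obtain ⟨u, rfl⟩ := hf u'
    obtain ⟨v, rfl⟩ := hf v'
    obtain ⟨l, rfl⟩ := hf l'
    have m1 : f (u * x * u⁻¹ * x⁻¹) = 1 := by
      simp only [map_mul, map_inv, hu]
      group
    obtain ⟨q, hq1, hq2⟩ := kill _ m1
    have m2 : f (q v * q x * (q v)⁻¹ * (q x)⁻¹) = 1 := by
      simp only [map_mul, map_inv, hq2, hv]
      group
    obtain ⟨r, hr1, hr2⟩ := kill _ m2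
    have a1 : r (q u) * r (q x) = r (q x) * r (q u) := by
      have h1 : r (q u) * r (q x) * (r (q u))⁻¹ * (r (q x))⁻¹ = 1 := by
        have := congrArg r hq1
        simpa only [map_mul, map_inv, map_one] using this
      calc r (q u) * r (q x)
          = (r (q u) * r (q x) * (r (q u))⁻¹ * (r (q x))⁻¹) * (r (q x) * r (q u)) := by group
        _ = _ := by rw [h1, one_mul]
    have a2 : r (q v) * r (q x) = r (q x) * r (q v) := by
      have h1 : r (q v) * r (q x) * (r (q v))⁻¹ * (r (q x))⁻¹ = 1 := by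
        simpa only [map_mul, map_inv, map_one] using hr1
      calc r (q v) * r (q x)
          = (r (q v) * r (q x) * (r (q v))⁻¹ * (r (q x))⁻¹) * (r (q x) * r (q v)) := by group
        _ = _ := by rw [h1, one_mul]
    have h3 := (hG (r (q x))).2.2 (r (q u)) (r (q v)) a1 a2 l
    have h4 := congrArg f h3
    simpa only [map_mul, map_inv, hr2, hq2] using h4

/-- Closure under normal subgroups. -/
theorem InK.normal (hG : InK G) (N : Subgroup G) (hN : N.Normal) : InK N := by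
  intro x
  have hle : cl (x : G) ≤ N := cl_le hN x.2
  -- conjugation by an element of `G` agrees on the normal closure with one from `N`
  have key : ∀ h : G, ∃ h' : N, h * (x : G) * h⁻¹ = (h' : G) * x * (h' : G)⁻¹ := by
    intro h
    obtain ⟨b, hb, c, hc, e⟩ := decomp' (hG (x : G)) h
    refine ⟨⟨b, hle hb⟩, ?_⟩
    have h1 : (x : G) * c = c * x := ce_comm hc (self_mem _)
    calc h * (x : G) * h⁻¹ = b * (c * x) * c⁻¹ * b⁻¹ := by rw [e]; group
      _ = b * (x * c) * c⁻¹ * b⁻¹ := by rw [h1]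
      _ = b * x * b⁻¹ := by group
  refine ⟨?_, ?_, ?_⟩
  · obtain ⟨h, k, e⟩ := (hG (x : G)).1
    obtain ⟨h', e1⟩ := key h
    obtain ⟨k', e2⟩ := key k
    rw [e1, e2] at e
    exact ⟨h', k', Subtype.ext e⟩
  · intro g
    obtain ⟨h, k, hl⟩ := (hG (x : G)).2.1 (g : G)
    obtain ⟨h', e1⟩ := key h
    obtain ⟨k', e2⟩ := key k
    rw [e1, e2] at hl
    exact ⟨h', k', fun l => Subtype.ext (hl l)⟩
  · intro u v hu hv l
    have hu' := congrArg Subtype.val hu
    have hv' := congrArg Subtype.val hv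
    exact Subtype.ext ((hG (x : G)).2.2 u v hu' hv' l)

/-- `InK` for a subgroup `N`, written with elements of the ambient group. -/
structure RelK (N : Subgroup G) : Prop where
  a : ∀ x ∈ N, ∃ h ∈ N, ∃ k ∈ N, x = h * x * h⁻¹ * (k * x * k⁻¹)⁻¹
  b : ∀ x ∈ N, ∀ g ∈ N, ∃ h ∈ N, ∃ k ∈ N, ∀ l ∈ N,
    (h * x * h⁻¹ * (k * x * k⁻¹)⁻¹)⁻¹ * g * (l * x * l⁻¹) =
      l * x * l⁻¹ * ((h * x * h⁻¹ * (k * x * k⁻¹)⁻¹)⁻¹ * g)
  c : ∀ x ∈ N, ∀ u ∈ N, ∀ v ∈ N, u * x = x * u → v * x = x * v → ∀ l ∈ N,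
    u * v * u⁻¹ * v⁻¹ * (l * x * l⁻¹) = l * x * l⁻¹ * (u * v * u⁻¹ * v⁻¹)

theorem InK.rel {N : Subgroup G} (h : InK N) : RelK N where
  a := by
    intro x hx
    obtain ⟨h, k, e⟩ := (h ⟨x, hx⟩).1
    exact ⟨h, h.2, k, k.2, congrArg Subtype.val e⟩
  b := by
    intro x hx g hg
    obtain ⟨h, k, e⟩ := (h ⟨x, hx⟩).2.1 ⟨g, hg⟩
    exact ⟨h, h.2, k, k.2, fun l hl => congrArg Subtype.val (e ⟨l, hl⟩)⟩
  c := by
    intro x hx u hu v hv h1 h2 l hl
    exact congrArg Subtype.val ((h ⟨x, hx⟩).2.2 ⟨u, hu⟩ ⟨v, hv⟩ (Subtype.ext h1) (Subtype.ext h2)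
      ⟨l, hl⟩)

/-- The subgroup generated by the `D`-conjugates of `z`. -/
def EE (D : Subgroup G) (z : G) : Subgroup G := Subgroup.closure {w | ∃ d ∈ D, w = d * z * d⁻¹}

theorem EE_le {D : Subgroup G} {z : G} (hz : z ∈ D) : EE D z ≤ D := by
  unfold EE
  rw [Subgroup.closure_le]
  rintro w ⟨d, hd, rfl⟩
  exact D.mul_mem (D.mul_mem hd hz) (D.inv_mem hd)

theorem mem_EE {D : Subgroup G} {z d : G} (hd : d ∈ D) : d * z * d⁻¹ ∈ EE D z :=
  Subgroup.subset_closure ⟨d, hd, rfl⟩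

theorem self_mem_EE {D : Subgroup G} {z : G} : z ∈ EE D z := by
  simpa using mem_EE (D := D) (z := z) D.one_mem

theorem mem_cent_EE {D : Subgroup G} {z c : G} (h : ∀ d ∈ D, c * (d * z * d⁻¹) = d * z * d⁻¹ * c) :
    c ∈ Subgroup.centralizer (EE D z : Set G) := by
  have key : EE D z ≤ Subgroup.centralizer {c} := by
    unfold EE
    rw [Subgroup.closure_le]
    rintro w ⟨d, hd, rfl⟩
    rw [SetLike.mem_coe, Subgroup.mem_centralizer_iff]
    intro w hw
    rw [Set.mem_singleton_iff] at hw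
    subst hw
    exact h d hd
  rw [Subgroup.mem_centralizer_iff]
  intro y hy
  exact (Subgroup.mem_centralizer_iff.1 (key hy) c rfl).symm

theorem RelK.facts {N D : Subgroup G} (hN : RelK N) (hD : D.Normal) (hDN : D ≤ N) {z : G}
    (hz : z ∈ D) :
    (∀ n ∈ N, ∃ b ∈ EE D z, ∃ c ∈ Subgroup.centralizer (EE D z : Set G), n = b * c) ∧
    (∀ y ∈ EE D z, y ∈ Subgroup.centralizer (EE D z : Set G) → y = 1) := by
  have hconj : ∀ h ∈ N, h * z * h⁻¹ ∈ EE D z := by
    intro h hh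
    obtain ⟨h', hh', k', hk', e⟩ := hN.b z (hDN hz) h hh
    have e1 := e 1 N.one_mem
    have hb : h' * z * h'⁻¹ * (k' * z * k'⁻¹)⁻¹ ∈ D :=
      D.mul_mem (hD.conj_mem z hz h') (D.inv_mem (hD.conj_mem z hz k'))
    generalize h' * z * h'⁻¹ * (k' * z * k'⁻¹)⁻¹ = b at e1 hb
    have : h * z * h⁻¹ = b * z * b⁻¹ := by
      have e2 : b⁻¹ * h * z = z * (b⁻¹ * h) := by simpa using e1
      calc h * z * h⁻¹ = b * (b⁻¹ * h * z) * h⁻¹ := by group
        _ = b * (z * (b⁻¹ * h)) * h⁻¹ := by rw [e2]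
        _ = b * z * b⁻¹ := by group
    rw [this]
    exact mem_EE hb
  have h1 : ∀ n ∈ N, ∃ b ∈ EE D z, ∃ c ∈ Subgroup.centralizer (EE D z : Set G), n = b * c := by
    intro n hn
    obtain ⟨h, hh, k, hk, e⟩ := hN.b z (hDN hz) n hn
    refine ⟨h * z * h⁻¹ * (k * z * k⁻¹)⁻¹, (EE D z).mul_mem (hconj h hh)
      ((EE D z).inv_mem (hconj k hk)), (h * z * h⁻¹ * (k * z * k⁻¹)⁻¹)⁻¹ * n, ?_, by group⟩
    exact mem_cent_EE (fun d hd => e d (hDN hd))
  refine ⟨h1, ?_⟩
  intro y hy hy'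
  have hyN : y ∈ N := hDN (EE_le hz hy)
  have hcomm : ∀ n ∈ N, n * y = y * n := by
    intro n hn
    obtain ⟨b, hb, c, hc, rfl⟩ := h1 n hn
    have e1 : b * y = y * b := Subgroup.mem_centralizer_iff.1 hy' b hb
    have e2 : y * c = c * y := Subgroup.mem_centralizer_iff.1 hc y hy
    calc b * c * y = b * (c * y) := by group
      _ = b * (y * c) := by rw [e2]
      _ = (b * y) * c := by group
      _ = y * b * c := by rw [e1]
      _ = y * (b * c) := by group
  obtain ⟨h, hh, k, hk, e⟩ := hN.a y hyN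
  have h2 : h * y * h⁻¹ = y := by rw [hcomm h hh]; group
  have h3 : k * y * k⁻¹ = y := by rw [hcomm k hk]; group
  rw [h2, h3] at e
  simpa using e

theorem exists_proj_sub (E M : Subgroup G)
    (hE : ∀ y ∈ E, y ∈ Subgroup.centralizer (E : Set G) → y = 1) (hEM : E ≤ M)
    (hM : ∀ m ∈ M, ∃ b ∈ E, ∃ c ∈ Subgroup.centralizer (E : Set G), m = b * c) :
    ∃ p : M →* G, (∀ m, p m ∈ E) ∧ (∀ m : M, (p m)⁻¹ * (m : G) ∈ Subgroup.centralizer (E : Set G)) ∧
      (∀ m : M, (m : G) ∈ E → p m = m) := by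
  obtain ⟨p, q, hp, hq, e, hX, hC⟩ := exists_proj (E.subgroupOf M)
    ((Subgroup.centralizer (E : Set G)).subgroupOf M)
    (fun b hb c hc => Subtype.ext (Subgroup.mem_centralizer_iff.1 (Subgroup.mem_subgroupOf.1 hc) b
      (Subgroup.mem_subgroupOf.1 hb)))
    (fun b hb hc => Subtype.ext (hE b (Subgroup.mem_subgroupOf.1 hb) (Subgroup.mem_subgroupOf.1 hc)))
    (by
      intro g
      obtain ⟨b, hb, c, hc, e⟩ := hM g g.2
      have hcM : c ∈ M := by
        have : c = b⁻¹ * g := by rw [e]; group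
        rw [this]
        exact M.mul_mem (M.inv_mem (hEM hb)) g.2
      exact ⟨⟨b, hEM hb⟩, Subgroup.mem_subgroupOf.2 hb, ⟨c, hcM⟩, Subgroup.mem_subgroupOf.2 hc,
        Subtype.ext e⟩)
  refine ⟨M.subtype.comp p, fun m => Subgroup.mem_subgroupOf.1 (hp m), fun m => ?_, fun m hm => ?_⟩
  · have h1 : (((p m)⁻¹ * m : M) : G) ∈ Subgroup.centralizer (E : Set G) := by
      have : (p m)⁻¹ * m = q m := by
        conv_lhs => rw [e m]
        have := (hX (p m) (hp m)).1
        have h3 := (hC (q m) (hq m)).1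
        simp only [map_mul, this, h3]
        group
      rw [this]
      exact Subgroup.mem_subgroupOf.1 (hq m)
    simpa using h1
  · have := (hX m (Subgroup.mem_subgroupOf.2 hm)).1
    simpa using congrArg Subtype.val this

section Join

variable {N₁ N₂ : Subgroup G}

theorem join_proj (n1 : N₁.Normal) (n2 : N₂.Normal) (h1 : RelK N₁) (h2 : RelK N₂) {z : G}
    (hz : z ∈ N₁ ⊓ N₂) :
    ∃ p : ↥(N₁ ⊔ N₂) →* G, (∀ m, p m ∈ EE (N₁ ⊓ N₂) z) ∧
      (∀ m : ↥(N₁ ⊔ N₂), (p m)⁻¹ * (m : G) ∈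
        Subgroup.centralizer (EE (N₁ ⊓ N₂) z : Set G)) ∧
      (∀ m : ↥(N₁ ⊔ N₂), (m : G) ∈ EE (N₁ ⊓ N₂) z → p m = m) := by
  have hD : (N₁ ⊓ N₂).Normal := inferInstance
  obtain ⟨f1, f3⟩ := h1.facts hD inf_le_left hz
  obtain ⟨f2, -⟩ := h2.facts hD inf_le_right hz
  refine exists_proj_sub _ _ f3 ((EE_le hz).trans (inf_le_left.trans le_sup_left)) ?_
  intro m hm
  obtain ⟨a, ha, b, hb, rfl⟩ := Subgroup.mem_sup_of_normal_left.1 hm
  obtain ⟨a1, ha1, a2, ha2, rfl⟩ := f1 a ha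
  obtain ⟨b1, hb1, b2, hb2, rfl⟩ := f2 b hb
  refine ⟨a1 * b1, Subgroup.mul_mem _ ha1 hb1, a2 * b2, Subgroup.mul_mem _ ha2 hb2, ?_⟩
  have : b1 * a2 = a2 * b1 := Subgroup.mem_centralizer_iff.1 ha2 b1 hb1
  calc a1 * a2 * (b1 * b2) = a1 * (a2 * b1) * b2 := by group
    _ = a1 * (b1 * a2) * b2 := by rw [this]
    _ = _ := by group

theorem join_f3 (n1 : N₁.Normal) (n2 : N₂.Normal) (h1 : RelK N₁) {z : G}
    (hz : z ∈ N₁ ⊓ N₂) : ∀ y ∈ EE (N₁ ⊓ N₂) z,
      y ∈ Subgroup.centralizer (EE (N₁ ⊓ N₂) z : Set G) → y = 1 :=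
  (h1.facts inferInstance inf_le_left hz).2

theorem comm_mem (n1 : N₁.Normal) (n2 : N₂.Normal) {a y : G} (ha : a ∈ N₁) (hy : y ∈ N₂) :
    a * y * a⁻¹ * y⁻¹ ∈ N₁ ⊓ N₂ := by
  refine ⟨?_, ?_⟩
  · have : a * y * a⁻¹ * y⁻¹ = a * (y * a⁻¹ * y⁻¹) := by group
    rw [this]
    exact N₁.mul_mem ha (n1.conj_mem _ (N₁.inv_mem ha) y)
  · exact N₂.mul_mem (n2.conj_mem _ hy a) (N₂.inv_mem hy)

theorem key_one (n1 : N₁.Normal) (n2 : N₂.Normal) (h1 : RelK N₁) (h2 : RelK N₂) {a₁ y : G}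
    (ha₁ : a₁ ∈ N₁) (hy : y ∈ N₂) :
    ∃ e ∈ N₁ ⊓ N₂, e⁻¹ * y * a₁ = a₁ * (e⁻¹ * y) ∧
      ∀ a ∈ N₁, y * a = a * y → e⁻¹ * y * a = a * (e⁻¹ * y) := by
  have hz := comm_mem n1 n2 ha₁ hy
  obtain ⟨p, hp, hc, hid⟩ := join_proj n1 n2 h1 h2 hz
  have hf3 := join_f3 n1 n2 h1 hz
  have hyM : y ∈ N₁ ⊔ N₂ := (le_sup_right : N₂ ≤ N₁ ⊔ N₂) hy
  -- the general statement
  have gen : ∀ a ∈ N₁, a * y * a⁻¹ * y⁻¹ ∈ EE (N₁ ⊓ N₂) (a₁ * y * a₁⁻¹ * y⁻¹) →
      (p ⟨y, hyM⟩)⁻¹ * y * a = a * ((p ⟨y, hyM⟩)⁻¹ * y) := by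
    intro a ha hin
    have haM : a ∈ N₁ ⊔ N₂ := (le_sup_left : N₁ ≤ N₁ ⊔ N₂) ha
    have hcy := hc ⟨y, hyM⟩
    have hca := hc ⟨a, haM⟩
    have hpy := hp ⟨y, hyM⟩
    have hpa := hp ⟨a, haM⟩
    have h3 := hid (⟨a, haM⟩ * ⟨y, hyM⟩ * ⟨a, haM⟩⁻¹ * ⟨y, hyM⟩⁻¹) hin
    simp only [map_mul, map_inv] at h3
    simp only [Subgroup.coe_mul, Subgroup.coe_inv] at h3
    generalize p ⟨y, hyM⟩ = yE at *
    generalize p ⟨a, haM⟩ = aE at *
    have ey : y = yE * (yE⁻¹ * y) := by group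
    have ea : a = aE * (aE⁻¹ * a) := by group
    generalize hyC : yE⁻¹ * y = yC at *
    generalize haC : aE⁻¹ * a = aC at *
    have c1 : aE * yC = yC * aE := Subgroup.mem_centralizer_iff.1 hcy aE hpa
    have c2 : yE * aC = aC * yE := Subgroup.mem_centralizer_iff.1 hca yE hpy
    have c3 : aC * yC = yC * aC := by
      have l1 : a * y = (aE * yE) * (aC * yC) := by
        calc a * y = (aE * aC) * (yE * yC) := by rw [← ea, ← ey]
          _ = aE * (aC * yE) * yC := by group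
          _ = aE * (yE * aC) * yC := by rw [c2]
          _ = _ := by group
      have l2 : y * a = (yE * aE) * (yC * aC) := by
        calc y * a = (yE * yC) * (aE * aC) := by rw [← ea, ← ey]
          _ = yE * (yC * aE) * aC := by group
          _ = yE * (aE * yC) * aC := by rw [c1]
          _ = _ := by group
      have l3 : a * y = (aE * yE * aE⁻¹ * yE⁻¹) * (y * a) := by
        rw [h3]; group
      rw [l1, l2] at l3
      have l4 : (aE * yE) * (aC * yC) = (aE * yE) * (yC * aC) := by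
        rw [l3]; group
      exact mul_left_cancel l4
    calc yC * a = yC * (aE * aC) := by rw [← ea]
      _ = (yC * aE) * aC := by group
      _ = (aE * yC) * aC := by rw [c1]
      _ = aE * (yC * aC) := by group
      _ = aE * (aC * yC) := by rw [c3]
      _ = (aE * aC) * yC := by group
      _ = a * yC := by rw [← ea]
  refine ⟨p ⟨y, hyM⟩, EE_le hz (hp _), gen a₁ ha₁ self_mem_EE, fun a ha hya => gen a ha ?_⟩
  have : a * y * a⁻¹ * y⁻¹ = 1 := by rw [← hya]; group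
  rw [this]
  exact Subgroup.one_mem _

theorem key_main (n1 : N₁.Normal) (n2 : N₂.Normal) (h1 : RelK N₁) (h2 : RelK N₂) {x y : G}
    (hx : x ∈ N₁) (hy : y ∈ N₂) :
    ∃ e ∈ N₁ ⊓ N₂, ∀ n ∈ N₁, e⁻¹ * y * (n * x * n⁻¹) = n * x * n⁻¹ * (e⁻¹ * y) := by
  obtain ⟨h, hh, k, hk, ex⟩ := h1.a x hx
  have hl : k⁻¹ * h ∈ N₁ := N₁.mul_mem (N₁.inv_mem hk) hh
  obtain ⟨e1, he1, hc1, -⟩ := key_one n1 n2 h1 h2 hl hy
  have hy1 : e1⁻¹ * y ∈ N₂ := N₂.mul_mem (N₂.inv_mem he1.2) hy
  obtain ⟨e2, he2, hc2, hc3⟩ := key_one n1 n2 h1 h2 hx hy1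
  have hc4 := hc3 _ hl hc1
  have hy2 : e2⁻¹ * (e1⁻¹ * y) ∈ N₂ := N₂.mul_mem (N₂.inv_mem he2.2) hy1
  refine ⟨e1 * e2, (N₁ ⊓ N₂).mul_mem he1 he2, ?_⟩
  have hh2 : (e1 * e2)⁻¹ * y = e2⁻¹ * (e1⁻¹ * y) := by group
  rw [hh2]
  generalize e2⁻¹ * (e1⁻¹ * y) = y2 at *
  have ex' : x = k * ((k⁻¹ * h) * x * (k⁻¹ * h)⁻¹ * x⁻¹) * k⁻¹ := by
    calc x = h * x * h⁻¹ * (k * x * k⁻¹)⁻¹ := ex
      _ = _ := by group
  generalize k⁻¹ * h = l at *
  intro n hn
  have ha : n * x * n⁻¹ ∈ N₁ := n1.conj_mem x hx n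
  have hz := comm_mem n1 n2 ha hy2
  obtain ⟨p, hp, hc, hid⟩ := join_proj n1 n2 h1 h2 hz
  have l1 : N₁ ≤ N₁ ⊔ N₂ := le_sup_left
  have l2 : N₂ ≤ N₁ ⊔ N₂ := le_sup_right
  have hED : EE (N₁ ⊓ N₂) (n * x * n⁻¹ * y2 * (n * x * n⁻¹)⁻¹ * y2⁻¹) ≤ N₁ :=
    (EE_le hz).trans inf_le_left
  have e5 : (⟨y2, l2 hy2⟩ : ↥(N₁ ⊔ N₂)) * ⟨l, l1 hl⟩ = ⟨l, l1 hl⟩ * ⟨y2, l2 hy2⟩ :=
    Subtype.ext hc4
  have e6 : (⟨y2, l2 hy2⟩ : ↥(N₁ ⊔ N₂)) * ⟨x, l1 hx⟩ = ⟨x, l1 hx⟩ * ⟨y2, l2 hy2⟩ :=
    Subtype.ext hc2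
  have e7 : (⟨x, l1 hx⟩ : ↥(N₁ ⊔ N₂)) = ⟨k, l1 hk⟩ * (⟨l, l1 hl⟩ * ⟨x, l1 hx⟩ * ⟨l, l1 hl⟩⁻¹ *
      ⟨x, l1 hx⟩⁻¹) * ⟨k, l1 hk⟩⁻¹ := Subtype.ext ex'
  have e8 := hid (⟨n, l1 hn⟩ * ⟨x, l1 hx⟩ * ⟨n, l1 hn⟩⁻¹ * ⟨y2, l2 hy2⟩ *
    (⟨n, l1 hn⟩ * ⟨x, l1 hx⟩ * ⟨n, l1 hn⟩⁻¹)⁻¹ * ⟨y2, l2 hy2⟩⁻¹) self_mem_EE
  have e5' := congrArg p e5
  have e6' := congrArg p e6
  have e7' := congrArg p e7
  simp only [map_mul, map_inv] at e5' e6' e7' e8
  simp only [Subgroup.coe_mul, Subgroup.coe_inv] at e8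
  have my := hED (hp ⟨y2, l2 hy2⟩)
  have ml := hED (hp ⟨l, l1 hl⟩)
  have mx := hED (hp ⟨x, l1 hx⟩)
  have mk := hED (hp ⟨k, l1 hk⟩)
  have mn := hED (hp ⟨n, l1 hn⟩)
  generalize p ⟨y2, l2 hy2⟩ = Y at *
  generalize p ⟨l, l1 hl⟩ = L at *
  generalize p ⟨x, l1 hx⟩ = X at *
  generalize p ⟨k, l1 hk⟩ = K at *
  generalize p ⟨n, l1 hn⟩ = N at *
  -- `n X n⁻¹` commutes with `Y`
  have e9 := h1.c Y my L ml X mx e5'.symm e6'.symm (K⁻¹ * N⁻¹) (N₁.mul_mem (N₁.inv_mem mk)
    (N₁.inv_mem mn))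
  have e10 : (N * X * N⁻¹) * Y = Y * (N * X * N⁻¹) := by
    calc (N * X * N⁻¹) * Y = N * (K * (L * X * L⁻¹ * X⁻¹) * K⁻¹) * N⁻¹ * Y := by rw [← e7']
      _ = N * K * (L * X * L⁻¹ * X⁻¹ * (K⁻¹ * N⁻¹ * Y * (K⁻¹ * N⁻¹)⁻¹)) * K⁻¹ * N⁻¹ := by group
      _ = N * K * (K⁻¹ * N⁻¹ * Y * (K⁻¹ * N⁻¹)⁻¹ * (L * X * L⁻¹ * X⁻¹)) * K⁻¹ * N⁻¹ := by rw [e9]
      _ = Y * (N * (K * (L * X * L⁻¹ * X⁻¹) * K⁻¹) * N⁻¹) := by group
      _ = Y * (N * X * N⁻¹) := by rw [← e7']
  have e11 : n * x * n⁻¹ * y2 * (n * x * n⁻¹)⁻¹ * y2⁻¹ = 1 := by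
    rw [← e8, e10]; group
  calc y2 * (n * x * n⁻¹) = (n * x * n⁻¹ * y2 * (n * x * n⁻¹)⁻¹ * y2⁻¹)⁻¹ *
        (n * x * n⁻¹ * y2) := by group
    _ = n * x * n⁻¹ * y2 := by rw [e11]; group

end Join

/-- Induction principle for a group generated by a set of subgroups. -/
theorem gen_induction {S : Set (Subgroup G)} (hS : sSup S = ⊤) {P : G → Prop}
    (mem : ∀ N ∈ S, ∀ g ∈ N, P g) (one : P 1) (mul : ∀ x y, P x → P y → P (x * y)) (g : G) :
    P g := by
  have hg : g ∈ ⨆ N : S, (N : Subgroup G) := by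
    rw [← sSup_eq_iSup', hS]; exact Subgroup.mem_top g
  refine Subgroup.iSup_induction (fun N : S => (N : Subgroup G)) (C := P) hg ?_ one mul
  exact fun N x hx => mem N N.2 x hx

section GenJoin

variable {S : Set (Subgroup G)} (hS : sSup S = ⊤) (hN : ∀ N ∈ S, N.Normal ∧ RelK N)

include hS hN

theorem gen_conj {N : Subgroup G} (h : N ∈ S) (g : G) :
    ∀ a ∈ N, ∃ n ∈ N, g * a * g⁻¹ = n * a * n⁻¹ := by
  refine gen_induction hS (P := fun g => ∀ a ∈ N, ∃ n ∈ N, g * a * g⁻¹ = n * a * n⁻¹) ?_ ?_ ?_ g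
  · intro N₂ h₂ g hg a ha
    obtain ⟨e, he, hc⟩ := key_main (hN N h).1 (hN N₂ h₂).1 (hN N h).2 (hN N₂ h₂).2 ha hg
    have h1 := hc 1 N.one_mem
    have h2 : e⁻¹ * g * a = a * (e⁻¹ * g) := by simpa using h1
    refine ⟨e, he.1, ?_⟩
    calc g * a * g⁻¹ = e * (e⁻¹ * g * a) * g⁻¹ := by group
      _ = e * (a * (e⁻¹ * g)) * g⁻¹ := by rw [h2]
      _ = e * a * e⁻¹ := by group
  · intro a ha
    exact ⟨1, N.one_mem, by group⟩
  · intro x y hx hy a ha
    obtain ⟨n, hn, e1⟩ := hy a ha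
    have h1 : n * a * n⁻¹ ∈ N := N.mul_mem (N.mul_mem hn ha) (N.inv_mem hn)
    obtain ⟨m, hm, e2⟩ := hx _ h1
    refine ⟨m * n, N.mul_mem hm hn, ?_⟩
    calc x * y * a * (x * y)⁻¹ = x * (y * a * y⁻¹) * x⁻¹ := by group
      _ = x * (n * a * n⁻¹) * x⁻¹ := by rw [e1]
      _ = m * (n * a * n⁻¹) * m⁻¹ := by rw [e2]
      _ = _ := by group

theorem gen_ce {N : Subgroup G} (h : N ∈ S) {x : G} (hx : x ∈ N) {z : G}
    (hz : ∀ n ∈ N, z * (n * x * n⁻¹) = n * x * n⁻¹ * z) : z ∈ ce x := by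
  rw [mem_ce_iff]
  intro l
  obtain ⟨n, hn, e⟩ := gen_conj hS hN h l x hx
  rw [e]
  exact hz n hn

theorem gen_split {N : Subgroup G} (h : N ∈ S) {x : G} (hx : x ∈ N) (g : G) :
    ∃ b ∈ N, b⁻¹ * g ∈ ce x := by
  refine gen_induction hS (P := fun g => ∃ b ∈ N, b⁻¹ * g ∈ ce x) ?_ ?_ ?_ g
  · intro N₂ h₂ g hg
    obtain ⟨e, he, hc⟩ := key_main (hN N h).1 (hN N₂ h₂).1 (hN N h).2 (hN N₂ h₂).2 hx hg
    exact ⟨e, he.1, gen_ce hS hN h hx hc⟩
  · exact ⟨1, N.one_mem, by simp⟩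
  · rintro g g' ⟨b, hb, hc⟩ ⟨b', hb', hc'⟩
    refine ⟨b * b', N.mul_mem hb hb', ?_⟩
    have h1 : (b * b')⁻¹ * (g * g') = (b'⁻¹ * (b⁻¹ * g) * b'⁻¹⁻¹) * (b'⁻¹ * g') := by group
    rw [h1]
    exact (ce x).mul_mem (ce_conj hc b'⁻¹) hc'

theorem gen_nice {N : Subgroup G} (h : N ∈ S) {x : G} (hx : x ∈ N) : Nice x := by
  have hB : ∀ g : G, ∃ h ∈ N, ∃ k ∈ N, (h * x * h⁻¹ * (k * x * k⁻¹)⁻¹)⁻¹ * g ∈ ce x := by
    intro g
    obtain ⟨b, hb, hc⟩ := gen_split hS hN h hx g
    obtain ⟨h', hh', k', hk', e⟩ := (hN N h).2.b x hx b hb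
    have h1 := gen_ce hS hN h hx e
    refine ⟨h', hh', k', hk', ?_⟩
    have h2 : (h' * x * h'⁻¹ * (k' * x * k'⁻¹)⁻¹)⁻¹ * g =
      ((h' * x * h'⁻¹ * (k' * x * k'⁻¹)⁻¹)⁻¹ * b) * (b⁻¹ * g) := by group
    rw [h2]
    exact (ce x).mul_mem h1 hc
  refine ⟨?_, ?_, ?_⟩
  · obtain ⟨h', -, k', -, e⟩ := (hN N h).2.a x hx
    exact ⟨h', k', e⟩
  · intro g
    obtain ⟨h', -, k', -, e⟩ := hB g
    exact ⟨h', k', (mem_ce_iff x _).1 e⟩
  · intro s t hs ht
    rw [← mem_ce_iff]
    obtain ⟨h1, hh1, k1, hk1, e1⟩ := hB s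
    obtain ⟨h2, hh2, k2, hk2, e2⟩ := hB t
    have m1 := bx_mem x h1 k1
    have m2 := bx_mem x h2 k2
    have n1 : h1 * x * h1⁻¹ * (k1 * x * k1⁻¹)⁻¹ ∈ N := cl_le (hN N h).1 hx m1
    have n2 : h2 * x * h2⁻¹ * (k2 * x * k2⁻¹)⁻¹ ∈ N := cl_le (hN N h).1 hx m2
    generalize h1 * x * h1⁻¹ * (k1 * x * k1⁻¹)⁻¹ = b at *
    generalize h2 * x * h2⁻¹ * (k2 * x * k2⁻¹)⁻¹ = d at *
    have es : s = b * (b⁻¹ * s) := by group
    have et : t = d * (d⁻¹ * t) := by group
    generalize b⁻¹ * s = c at *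
    generalize d⁻¹ * t = f at *
    have q1 : x * c = c * x := ce_comm e1 (self_mem x)
    have q2 : x * f = f * x := ce_comm e2 (self_mem x)
    have q3 : b * x = x * b := by
      calc b * x = (b * c) * c⁻¹ * x := by group
        _ = s * c⁻¹ * x := by rw [← es]
        _ = s * c⁻¹ * (x * c) * c⁻¹ := by group
        _ = s * c⁻¹ * (c * x) * c⁻¹ := by rw [q1]
        _ = (s * x) * c⁻¹ := by group
        _ = (x * s) * c⁻¹ := by rw [hs]
        _ = x * (b * c) * c⁻¹ := by rw [← es]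
        _ = x * b := by group
    have q4 : d * x = x * d := by
      calc d * x = (d * f) * f⁻¹ * x := by group
        _ = t * f⁻¹ * x := by rw [← et]
        _ = t * f⁻¹ * (x * f) * f⁻¹ := by group
        _ = t * f⁻¹ * (f * x) * f⁻¹ := by rw [q2]
        _ = (t * x) * f⁻¹ := by group
        _ = (x * t) * f⁻¹ := by rw [ht]
        _ = x * (d * f) * f⁻¹ := by rw [← et]
        _ = x * d := by group
    have q5 := gen_ce hS hN h hx ((hN N h).2.c x hx b n1 d n2 q3 q4)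
    have q6 : s * t * s⁻¹ * t⁻¹ = (b * d * b⁻¹ * d⁻¹) * (c * f * c⁻¹ * f⁻¹) := by
      have r1 : d * c = c * d := ce_comm e1 m2
      have r2 : b * f = f * b := ce_comm e2 m1
      have r3 : (d * b)⁻¹ * (c * f) = (c * f) * (d * b)⁻¹ :=
        ce_comm ((ce x).mul_mem e1 e2) ((cl x).inv_mem ((cl x).mul_mem m2 m1))
      have r4 : s * t = (b * d) * (c * f) := by
        rw [es, et]
        calc b * c * (d * f) = b * (c * d) * f := by group
          _ = b * (d * c) * f := by rw [r1]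
          _ = _ := by group
      have r5 : t * s = (d * b) * (f * c) := by
        rw [es, et]
        calc d * f * (b * c) = d * (f * b) * c := by group
          _ = d * (b * f) * c := by rw [r2]
          _ = _ := by group
      have r6 : (d * b)⁻¹ * (f * c)⁻¹ = (f * c)⁻¹ * (d * b)⁻¹ :=
        ce_comm ((ce x).inv_mem ((ce x).mul_mem e2 e1)) ((cl x).inv_mem ((cl x).mul_mem m2 m1))
      calc s * t * s⁻¹ * t⁻¹ = (s * t) * (t * s)⁻¹ := by group
        _ = (b * d) * (c * f) * ((d * b) * (f * c))⁻¹ := by rw [r4, r5]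
        _ = (b * d) * (c * f) * ((f * c)⁻¹ * (d * b)⁻¹) := by group
        _ = (b * d) * (c * f) * ((d * b)⁻¹ * (f * c)⁻¹) := by rw [r6]
        _ = (b * d) * ((c * f) * (d * b)⁻¹) * (f * c)⁻¹ := by group
        _ = (b * d) * ((d * b)⁻¹ * (c * f)) * (f * c)⁻¹ := by rw [r3]
        _ = _ := by group
    rw [q6]
    exact (ce x).mul_mem q5 ((ce x).mul_mem ((ce x).mul_mem ((ce x).mul_mem e1 e2)
      ((ce x).inv_mem e1)) ((ce x).inv_mem e2))

theorem gen_inK : InK G := by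
  intro x
  have : HN x := by
    refine gen_induction hS (P := fun g => HN g) ?_ HN.one (fun _ _ h1 h2 => h1.mul h2) x
    intro N h g hg y hy
    exact gen_nice hS hN h (cl_le (hN N h).1 hg hy)
  exact this.nice

end GenJoin

theorem InK.join (hG : sSup {N : Subgroup G | N.Normal ∧ InK N} = ⊤) : InK G :=
  gen_inK hG (fun _ hN => ⟨hN.1, hN.2.rel⟩)

end Core

/-! ## The group SL₂ -/

namespace SLtwo
open Matrix

variable {K : Type u} [Field K]

/-- The group. -/
abbrev SL2 (K : Type u) [Field K] := Matrix.SpecialLinearGroup (Fin 2) K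

theorem ext_entries {x y : SL2 K} (h00 : x 0 0 = y 0 0) (h01 : x 0 1 = y 0 1)
    (h10 : x 1 0 = y 1 0) (h11 : x 1 1 = y 1 1) : x = y := by
  apply Matrix.SpecialLinearGroup.ext
  intro i j
  fin_cases i <;> fin_cases j <;> assumption

theorem det_entries (x : SL2 K) : x 0 0 * x 1 1 - x 0 1 * x 1 0 = 1 := by
  have := x.det_coe
  rwa [Matrix.det_fin_two] at this

theorem two_zero [CharP K 2] : (2 : K) = 0 := by
  have := CharP.cast_eq_zero K 2
  simpa using this

/-- The companion matrix of trace `t`. -/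
def comp (t : K) : SL2 K := ⟨!![0, -1; 1, t], by simp [Matrix.det_fin_two]⟩

/-- A matrix of determinant one with given entries. -/
def mk (a b c d : K) (h : a * d - b * c = 1) : SL2 K :=
  ⟨!![a, b; c, d], by rw [Matrix.det_fin_two_of, h]⟩

@[simp] theorem mk00 (a b c d : K) (h : a * d - b * c = 1) : (mk a b c d h) 0 0 = a := rfl
@[simp] theorem mk01 (a b c d : K) (h : a * d - b * c = 1) : (mk a b c d h) 0 1 = b := rfl
@[simp] theorem mk10 (a b c d : K) (h : a * d - b * c = 1) : (mk a b c d h) 1 0 = c := rfl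
@[simp] theorem mk11 (a b c d : K) (h : a * d - b * c = 1) : (mk a b c d h) 1 1 = d := rfl
@[simp] theorem comp00 (t : K) : (comp t) 0 0 = 0 := rfl
@[simp] theorem comp01 (t : K) : (comp t) 0 1 = -1 := rfl
@[simp] theorem comp10 (t : K) : (comp t) 1 0 = 1 := rfl
@[simp] theorem comp11 (t : K) : (comp t) 1 1 = t := rfl

theorem mul_entry (x y : SL2 K) (i j : Fin 2) : (x * y) i j = x i 0 * y 0 j + x i 1 * y 1 j := by
  rw [Matrix.SpecialLinearGroup.coe_mul, Matrix.mul_apply, Fin.sum_univ_two]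

theorem one_entries : (1 : SL2 K) 0 0 = 1 ∧ (1 : SL2 K) 0 1 = 0 ∧ (1 : SL2 K) 1 0 = 0 ∧
    (1 : SL2 K) 1 1 = 1 := by
  simp

theorem conj_comp [IsAlgClosed K] [CharP K 2] (x : SL2 K) (hx : x ≠ 1) :
    ∃ P : SL2 K, x = P * comp (x 0 0 + x 1 1) * P⁻¹ := by
  have h2 : (2 : K) = 0 := two_zero
  have hd := det_entries x
  obtain ⟨v1, v2, hv⟩ : ∃ v1 v2 : K, v1 * (x 1 0 * v1 + x 1 1 * v2) -
      v2 * (x 0 0 * v1 + x 0 1 * v2) ≠ 0 := by
    by_contra hcon
    push Not at hcon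
    have h1 := hcon 1 0
    have h3 := hcon 0 1
    have h4 := hcon 1 1
    simp only [mul_one, mul_zero, add_zero, one_mul, zero_mul, sub_zero, zero_add, zero_sub,
      neg_eq_zero] at h1 h3 h4
    rw [h1, h3] at h4
    have h5 : x 1 1 = x 0 0 := by linear_combination h4
    rw [h1, h3, h5] at hd
    have h6 : x 0 0 = 1 := by
      have : (x 0 0 - 1) * (x 0 0 - 1) = 0 := by
        linear_combination hd + (1 - x 0 0) * h2
      have h := mul_self_eq_zero.1 this
      linear_combination h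
    exact hx (ext_entries (by simpa using h6) (by simpa using h3) (by simpa using h1)
      (by simpa [h5] using h6))
  obtain ⟨m, hm⟩ := IsAlgClosed.exists_pow_nat_eq (v1 * (x 1 0 * v1 + x 1 1 * v2) -
      v2 * (x 0 0 * v1 + x 0 1 * v2))⁻¹ (n := 2) (by norm_num)
  have hm' : m ^ 2 * (v1 * (x 1 0 * v1 + x 1 1 * v2) -
      v2 * (x 0 0 * v1 + x 0 1 * v2)) = 1 := by
    rw [hm]; exact inv_mul_cancel₀ hv
  refine ⟨mk (m * v1) (m * (x 0 0 * v1 + x 0 1 * v2)) (m * v2) (m * (x 1 0 * v1 + x 1 1 * v2))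
    (by linear_combination hm'), ?_⟩
  apply eq_mul_inv_of_mul_eq
  apply ext_entries
  all_goals simp only [mul_entry, mk00, mk01, mk10, mk11, comp00, comp01, comp10, comp11]
  · ring
  · linear_combination (-(m * v1)) * hd
  · ring
  · linear_combination (-(m * v2)) * hd

theorem conj_of_trace [IsAlgClosed K] [CharP K 2] (x y : SL2 K) (hx : x ≠ 1) (hy : y ≠ 1)
    (ht : y 0 0 + y 1 1 = x 0 0 + x 1 1) : ∃ h : SL2 K, y = h * x * h⁻¹ := by
  obtain ⟨P, hP⟩ := conj_comp x hx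
  obtain ⟨Q, hQ⟩ := conj_comp y hy
  refine ⟨Q * P⁻¹, ?_⟩
  rw [ht] at hQ
  have h1 : comp (x 0 0 + x 1 1) = P⁻¹ * x * P := by
    generalize comp (x 0 0 + x 1 1) = c at *
    rw [hP]; group
  rw [hQ, h1]
  group

theorem exists_rep_comp [IsAlgClosed K] [CharP K 2] (x : SL2 K) (hx : x ≠ 1) (t : K) :
    ∃ h k : SL2 K, comp t = h * x * h⁻¹ * (k * x * k⁻¹)⁻¹ := by
  have h2 : (2 : K) = 0 := two_zero
  -- it is enough to find `y`
  have suff : ∀ y : SL2 K, y ≠ 1 → comp t * y ≠ 1 → y 0 0 + y 1 1 = x 0 0 + x 1 1 →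
      (comp t * y) 0 0 + (comp t * y) 1 1 = x 0 0 + x 1 1 →
      ∃ h k : SL2 K, comp t = h * x * h⁻¹ * (k * x * k⁻¹)⁻¹ := by
    intro y hy1 hy2 hy3 hy4
    obtain ⟨k, hk⟩ := conj_of_trace x y hx hy1 hy3
    obtain ⟨h, hh⟩ := conj_of_trace x (comp t * y) hx hy2 hy4
    exact ⟨h, k, by rw [← hk, ← hh]; group⟩
  generalize x 0 0 + x 1 1 = T at *
  obtain ⟨s, hs⟩ : ∃ s : K, s * (T - s) = 1 := by
    have hdeg : (Polynomial.X ^ 2 - Polynomial.C T * Polynomial.X + 1 : Polynomial K).degree ≠ 0 := by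
      have : (Polynomial.X ^ 2 - Polynomial.C T * Polynomial.X + 1 : Polynomial K).degree = 2 := by
        compute_degree!
      rw [this]; norm_num
    obtain ⟨s, hs⟩ := IsAlgClosed.exists_root _ hdeg
    refine ⟨s, ?_⟩
    simp only [Polynomial.IsRoot, Polynomial.eval_add, Polynomial.eval_sub, Polynomial.eval_pow,
      Polynomial.eval_X, Polynomial.eval_mul, Polynomial.eval_C, Polynomial.eval_one] at hs
    linear_combination -hs
  by_cases hcase : s = 1 ∧ t = 0
  · obtain ⟨rfl, rfl⟩ := hcase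
    have hT : T = 0 := by linear_combination hs + h2
    classical
    have : Infinite K := IsAlgClosed.instInfinite
    obtain ⟨r, hr⟩ := Infinite.exists_notMem_finset ({0, 1} : Finset K)
    simp only [Finset.mem_insert, Finset.mem_singleton, not_or] at hr
    refine suff (mk (1 + r) r r (1 + r) (by linear_combination r * h2)) ?_ ?_ ?_ ?_
    · intro h
      have := congrArg (fun z : SL2 K => z 0 1) h
      simp only [mk01] at this
      exact hr.1 (by simpa using this)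
    · intro h
      have := congrArg (fun z : SL2 K => z 0 0) h
      simp only [mul_entry, comp00, comp01, mk00, mk10] at this
      have h3 : -r = 1 := by simpa using this
      exact hr.2 (by linear_combination -h3 - h2)
    · simp only [mk00, mk11, hT]; linear_combination (1 + r) * h2
    · simp only [mul_entry, comp00, comp01, comp10, comp11, mk00, mk10, mk01, mk11, hT]; ring
  · refine suff (mk (T - s) (T - t * s) 0 s (by linear_combination hs)) ?_ ?_ ?_ ?_
    · intro h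
      have e1 : s = 1 := by simpa using congrArg (fun z : SL2 K => z 1 1) h
      have e2 : T - t * s = 0 := by simpa using congrArg (fun z : SL2 K => z 0 1) h
      have e3 : T - s = 1 := by simpa using congrArg (fun z : SL2 K => z 0 0) h
      apply hcase
      refine ⟨e1, ?_⟩
      rw [e1] at e2 e3
      linear_combination -e2 + e3 + h2
    · intro h
      have := congrArg (fun z : SL2 K => z 0 0) h
      simp only [mul_entry, comp00, comp01, mk00, mk10] at this
      simp at this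
    · simp only [mk00, mk11]; ring
    · simp only [mul_entry, comp00, comp01, comp10, comp11, mk00, mk10, mk01, mk11]; ring

theorem exists_rep [IsAlgClosed K] [CharP K 2] (x g : SL2 K) (hx : x ≠ 1) :
    ∃ h k : SL2 K, g = h * x * h⁻¹ * (k * x * k⁻¹)⁻¹ := by
  by_cases hg : g = 1
  · exact ⟨1, 1, by rw [hg]; group⟩
  · obtain ⟨P, hP⟩ := conj_comp g hg
    obtain ⟨h, k, e⟩ := exists_rep_comp x hx (g 0 0 + g 1 1)
    refine ⟨P * h, P * k, ?_⟩
    rw [e] at hP
    rw [hP]; group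

theorem comm_comp (t : K) (u : SL2 K) (hu : u * comp t = comp t * u) :
    u 0 1 = -u 1 0 ∧ u 1 1 = u 0 0 + t * u 1 0 := by
  have e1 := congrArg (fun z : SL2 K => z 0 0) hu
  have e2 := congrArg (fun z : SL2 K => z 1 0) hu
  simp only [mul_entry, comp00, comp01, comp10, comp11] at e1 e2
  constructor
  · linear_combination e1
  · linear_combination e2

theorem cent_comm_comp (t : K) (u v : SL2 K) (hu : u * comp t = comp t * u)
    (hv : v * comp t = comp t * v) : u * v = v * u := by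
  obtain ⟨u1, u2⟩ := comm_comp t u hu
  obtain ⟨v1, v2⟩ := comm_comp t v hv
  apply ext_entries
  all_goals simp only [mul_entry, u1, u2, v1, v2]
  all_goals ring

theorem cent_comm [IsAlgClosed K] [CharP K 2] (x u v : SL2 K) (hx : x ≠ 1) (hu : u * x = x * u)
    (hv : v * x = x * v) : u * v = v * u := by
  obtain ⟨P, hP⟩ := conj_comp x hx
  have key : ∀ w : SL2 K, w * x = x * w → (P⁻¹ * w * P) * comp (x 0 0 + x 1 1) =
      comp (x 0 0 + x 1 1) * (P⁻¹ * w * P) := by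
    intro w hw
    have h1 : comp (x 0 0 + x 1 1) = P⁻¹ * x * P := by
      generalize comp (x 0 0 + x 1 1) = c at *
      rw [hP]; group
    rw [h1]
    calc P⁻¹ * w * P * (P⁻¹ * x * P) = P⁻¹ * (w * x) * P := by group
      _ = P⁻¹ * (x * w) * P := by rw [hw]
      _ = _ := by group
  have h2 := cent_comm_comp _ _ _ (key u hu) (key v hv)
  calc u * v = P * ((P⁻¹ * u * P) * (P⁻¹ * v * P)) * P⁻¹ := by group
    _ = P * ((P⁻¹ * v * P) * (P⁻¹ * u * P)) * P⁻¹ := by rw [h2]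
    _ = v * u := by group
end SLtwo

/-! ## First-order sentences -/

namespace Sent
open FirstOrder FirstOrder.Language
variable {α : Type}
/-- Product of two terms. -/
def m (s t : groupLang.Term α) : groupLang.Term α := Functions.apply₂ (L := groupLang) GroupFunc.mul s t
/-- Inverse of a term. -/
def i (s : groupLang.Term α) : groupLang.Term α := Functions.apply₁ (L := groupLang) GroupFunc.inv s

@[simp] theorem realize_m {G : Type u} [Group G] (s t : groupLang.Term α) (v : α → G) :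
    (m s t).realize v = s.realize v * t.realize v := by
  rfl

@[simp] theorem realize_i {G : Type u} [Group G] (s : groupLang.Term α) (v : α → G) :
    (i s).realize v = (s.realize v)⁻¹ := by
  rfl

/-- The term for the conjugate `h x h⁻¹`. -/
def cj (h x : groupLang.Term α) : groupLang.Term α := m (m h x) (i h)

@[simp] theorem realize_cj {G : Type u} [Group G] (s t : groupLang.Term α) (v : α → G) :
    (cj s t).realize v = s.realize v * t.realize v * (s.realize v)⁻¹ := by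
  simp [cj]

/-- First sentence. -/
def phiA : groupLang.Sentence :=
  ∀' ∃' ∃' (&0 =' m (cj (&1) (&0)) (i (cj (&2) (&0))))

/-- Second sentence. -/
def phiB : groupLang.Sentence :=
  ∀' ∀' ∃' ∃' ∀' (m (m (i (m (cj (&2) (&0)) (i (cj (&3) (&0))))) (&1)) (cj (&4) (&0)) ='
    m (cj (&4) (&0)) (m (i (m (cj (&2) (&0)) (i (cj (&3) (&0))))) (&1)))

/-- Third sentence. -/
def phiC : groupLang.Sentence :=
  ∀' ∀' ∀' ∀' ((m (&1) (&0) =' m (&0) (&1)) ⟹ ((m (&2) (&0) =' m (&0) (&2)) ⟹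
    (m (m (m (m (&1) (&2)) (i (&1))) (i (&2))) (cj (&3) (&0)) ='
      m (cj (&3) (&0)) (m (m (m (&1) (&2)) (i (&1))) (i (&2))))))

theorem phiA_iff (G : Type u) [Group G] : G ⊨ phiA ↔
    ∀ x : G, ∃ h k : G, x = h * x * h⁻¹ * (k * x * k⁻¹)⁻¹ := by
  simp only [phiA, Sentence.Realize, Formula.Realize, BoundedFormula.realize_all,
    BoundedFormula.realize_ex, BoundedFormula.realize_bdEqual, realize_m, realize_i, realize_cj]
  rfl

theorem phiB_iff (G : Type u) [Group G] : G ⊨ phiB ↔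
    ∀ x g : G, ∃ h k : G, ∀ l : G,
    (h * x * h⁻¹ * (k * x * k⁻¹)⁻¹)⁻¹ * g * (l * x * l⁻¹) =
      l * x * l⁻¹ * ((h * x * h⁻¹ * (k * x * k⁻¹)⁻¹)⁻¹ * g) := by
  simp only [phiB, Sentence.Realize, Formula.Realize, BoundedFormula.realize_all,
    BoundedFormula.realize_ex, BoundedFormula.realize_bdEqual, realize_m, realize_i, realize_cj]
  rfl

theorem phiC_iff (G : Type u) [Group G] : G ⊨ phiC ↔
    ∀ x u v l : G, u * x = x * u → v * x = x * v →
    u * v * u⁻¹ * v⁻¹ * (l * x * l⁻¹) = l * x * l⁻¹ * (u * v * u⁻¹ * v⁻¹) := by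
  simp only [phiC, Sentence.Realize, Formula.Realize, BoundedFormula.realize_all,
    BoundedFormula.realize_imp, BoundedFormula.realize_bdEqual, realize_m, realize_i, realize_cj]
  rfl
end Sent


/-! ## The example -/

/-- `SL₂` over an algebraically closed field of characteristic two is in the class. -/
theorem inK_SL2 (K : Type u) [Field K] [IsAlgClosed K] [CharP K 2] : InK (SLtwo.SL2 K) := by
  intro x
  by_cases hx : x = 1
  · rw [hx]; exact nice_one
  · refine ⟨SLtwo.exists_rep x x hx, ?_, ?_⟩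
    · intro g
      obtain ⟨h, k, e⟩ := SLtwo.exists_rep x g hx
      refine ⟨h, k, fun l => ?_⟩
      rw [← e]; group
    · intro s t hs ht l
      have h1 : s * t * s⁻¹ * t⁻¹ = 1 := by
        rw [SLtwo.cent_comm x s t hx hs ht]; group
      rw [h1, one_mul, mul_one]

/-- The algebraic closure of the field of rational functions over the field with two elements. -/
abbrev K0 : Type := AlgebraicClosure (RatFunc (ZMod 2))

/-- A transcendental element. -/
noncomputable def tt : K0 := algebraMap (RatFunc (ZMod 2)) K0 RatFunc.X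

theorem tt_pow (n : ℕ) (h : tt ^ n = 1) : n = 0 := by
  unfold tt at h
  rw [← map_pow, ← map_one (algebraMap (RatFunc (ZMod 2)) K0)] at h
  have h1 := (algebraMap (RatFunc (ZMod 2)) K0).injective h
  rw [← RatFunc.algebraMap_X, ← map_pow,
    ← map_one (algebraMap (Polynomial (ZMod 2)) (RatFunc (ZMod 2)))] at h1
  have h2 := RatFunc.algebraMap_injective (ZMod 2) h1
  have h3 := congrArg Polynomial.natDegree h2
  simpa using h3

theorem tt_ne : tt ≠ 0 := by
  intro h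
  have : tt ^ 1 ≠ 1 := fun h1 => one_ne_zero (tt_pow 1 h1)
  unfold tt at h
  rw [map_eq_zero] at h
  exact RatFunc.X_ne_zero h

/-- The diagonal matrix with entries `tt`, `tt⁻¹`. -/
noncomputable def dd : SLtwo.SL2 K0 := SLtwo.mk tt 0 0 tt⁻¹ (by
  rw [mul_inv_cancel₀ tt_ne]; ring)

theorem dd_pow (n : ℕ) : (dd ^ n) 0 0 = tt ^ n ∧ (dd ^ n) 0 1 = 0 := by
  induction n with
  | zero => simp
  | succ n ih =>
    have d00 : dd 0 0 = tt := rfl
    have d01 : dd 0 1 = 0 := rfl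
    rw [pow_succ]
    constructor
    · rw [SLtwo.mul_entry, ih.1, ih.2, d00]; ring
    · rw [SLtwo.mul_entry, ih.1, ih.2, d01]; ring

theorem dd_order (n : ℕ) (h : dd ^ n = 1) : n = 0 := by
  apply tt_pow
  rw [← (dd_pow n).1, h]
  simp

theorem inK_iff (G : Type u) [Group G] :
    InK G ↔ ∀ φ ∈ ({Sent.phiA, Sent.phiB, Sent.phiC} : Set groupLang.Sentence),
      FirstOrder.Language.Sentence.Realize G φ := by
  simp only [Set.mem_insert_iff, Set.mem_singleton_iff, forall_eq_or_imp, forall_eq]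
  rw [Sent.phiA_iff, Sent.phiB_iff, Sent.phiC_iff]
  constructor
  · intro h
    exact ⟨fun x => (h x).1, fun x => (h x).2.1, fun x u v l hu hv => (h x).2.2 u v hu hv l⟩
  · rintro ⟨h1, h2, h3⟩ x
    exact ⟨h1 x, h2 x, fun u v hu hv l => h3 x u v l hu hv⟩

/-- There is a first-order definable radical class of groups that contains a group which is not
locally finite and that is not the class of all groups. -/
theorem result : ∃ K : (∀ (G : Type u) [Group G], Prop),
    IsRadicalClass K ∧ IsFirstOrderDefinable K ∧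
    (∃ (G : Type u) (_ : Group G), K G ∧ ¬ IsLocallyFiniteGroup G) ∧
    (∃ (G : Type u) (_ : Group G), ¬ K G) := by
  refine ⟨fun G _ => InK G, ⟨?_, ?_, ?_⟩, ⟨_, fun G _ => inK_iff G⟩, ?_, ?_⟩
  · intro G H _ _ f hf hG
    exact InK.image hG f hf
  · intro G _ N hN hG
    exact InK.normal hG N hN
  · intro G _ hG
    exact InK.join hG
  · refine ⟨ULift.{u} (SLtwo.SL2 K0), inferInstance, ?_, ?_⟩
    · exact (inK_SL2 K0).image (MulEquiv.ulift.symm : SLtwo.SL2 K0 ≃* ULift.{u} (SLtwo.SL2 K0))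
        (MulEquiv.surjective _)
    · intro h
      have h1 := h (Subgroup.zpowers (ULift.up dd)) ⟨{ULift.up dd}, by
        rw [Finset.coe_singleton, Subgroup.zpowers_eq_closure]⟩
      have h2 : IsOfFinOrder (ULift.up.{u} dd) := by
        rw [← finite_zpowers]
        exact Set.toFinite _
      rw [isOfFinOrder_iff_pow_eq_one] at h2
      obtain ⟨n, hn, e⟩ := h2
      have h3 : dd ^ n = 1 := by
        have := congrArg ULift.down e
        simpa using this
      exact hn.ne' (dd_order n h3)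
  · refine ⟨ULift.{u} (Multiplicative ℤ), inferInstance, ?_⟩
    intro h
    obtain ⟨a, b, e⟩ := (h (ULift.up (Multiplicative.ofAdd 1))).1
    have h1 : (ULift.up.{u} (Multiplicative.ofAdd (1 : ℤ))) = 1 := by
      rw [e]
      rw [mul_comm a, mul_comm b]
      group
    have h2 := congrArg ULift.down h1
    have h3 := congrArg Multiplicative.toAdd h2
    simp at h3

end Pool.Agent.Results.MP_cf13c7_al.DefinableRadical
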